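import Pool.Agent.Helper95.C2.Spec

set_option autoImplicit false

/-!
# CNG: the resultant depends on `h` modulo `(2, Mr)` only
-/

open Polynomial

namespace Pool.Agent.Helper46.C2.CNG

open Pool.Agent.Helper95.C2

universe u

theorem main : S_CNG.{u} := by
  intro S _ h8 A G Mr b h₁ h₂ hM hxy
  obtain ⟨x, y, hxy⟩ := hxy
  have h8' : (8 : S[X]) = 0 := by
    have : (8 : S[X]) = C (8 : S) := by rw [map_ofNat]
    rw [this, h8, C_0]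
  have e1 : (h₂ + 2 * y) ^ 8 = h₂ ^ 8 := by
    have : (h₂ + 2 * y) ^ 8 = h₂ ^ 8 + 8 * (2 * h₂ ^ 7 * y + 14 * h₂ ^ 6 * y ^ 2 +
        56 * h₂ ^ 5 * y ^ 3 + 140 * h₂ ^ 4 * y ^ 4 + 224 * h₂ ^ 3 * y ^ 5 + 224 * h₂ ^ 2 * y ^ 6 +
        128 * h₂ * y ^ 7 + 32 * y ^ 8) := by ring
    rw [this, h8', zero_mul, add_zero]
  apply rs_congr hM
  have e2 : A * (G + h₁ ^ 8) + C b - (A * (G + h₂ ^ 8) + C b) =
      A * (h₁ ^ 8 - (h₂ + 2 * y) ^ 8) := by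
    rw [e1]; ring
  rw [e2]
  refine dvd_mul_of_dvd_right ?_ A
  refine dvd_trans ?_ (sub_dvd_pow_sub_pow h₁ (h₂ + 2 * y) 8)
  exact ⟨x, by linear_combination hxy⟩

end Pool.Agent.Helper46.C2.CNG
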