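import Pool.Agent.Helper95.C2.Spec

set_option autoImplicit false

/-!
# ETA: both values of the trace occur
-/

open Polynomial

namespace Pool.Agent.Helper46.C2.ETA

open Pool.Agent.Helper95.C2

universe u

lemma map_tr2 {R S : Type u} [CommRing R] [CommRing S] (φ : R →+* S) (n : ℕ) (u : R) :
    φ (tr2 n u) = tr2 n (φ u) := by
  unfold tr2
  rw [map_sum]
  exact Finset.sum_congr rfl fun i _ => map_pow _ _ _

lemma tr2_add {L : Type u} [Field L] [CharP L 2] (n : ℕ) (u v : L) :
    tr2 n (u + v) = tr2 n u + tr2 n v := by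
  unfold tr2
  rw [← Finset.sum_add_distrib]
  exact Finset.sum_congr rfl fun i _ => add_pow_char_pow _ _ _ _

lemma tr2_zero {L : Type u} [Field L] (n : ℕ) : tr2 n (0 : L) = 0 := by
  unfold tr2
  exact Finset.sum_eq_zero fun i _ => zero_pow (by positivity)

/-- in a finite field with `2 ^ n` elements, `n ≥ 2` -/
theorem field {L : Type u} [Field L] [Fintype L] [CharP L 2] (n : ℕ) (hn : 2 ≤ n)
    (hc : Fintype.card L = 2 ^ n) :
    (∃ u : L, u ≠ 0 ∧ tr2 n u = 0) ∧ (∃ u : L, u ≠ 0 ∧ tr2 n u ≠ 0) := by
  classical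
  have hsq : ∀ u : L, tr2 n u ^ 2 = tr2 n u := by
    intro u
    have h1 : tr2 n u ^ 2 = ∑ i ∈ Finset.range n, u ^ 2 ^ (i + 1) := by
      unfold tr2
      have h2 := map_sum (frobenius L 2) (fun i => u ^ 2 ^ i) (Finset.range n)
      rw [frobenius_def] at h2
      rw [h2]
      refine Finset.sum_congr rfl fun i _ => ?_
      rw [frobenius_def, ← pow_mul, ← pow_succ]
    have h3 := Finset.sum_range_succ' (fun i => u ^ 2 ^ i) n
    have h4 := Finset.sum_range_succ (fun i => u ^ 2 ^ i) n
    rw [h3] at h4
    have h5 : u ^ 2 ^ n = u := by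
      rw [← hc]
      exact FiniteField.pow_card u
    rw [h5] at h4
    simp only [pow_zero, pow_one] at h4
    rw [h1]
    exact add_right_cancel h4
  have h01 : ∀ u : L, tr2 n u = 0 ∨ tr2 n u = 1 := by
    intro u
    have h := hsq u
    have h2 : tr2 n u * (tr2 n u - 1) = 0 := by
      have : tr2 n u * (tr2 n u - 1) = tr2 n u ^ 2 - tr2 n u := by ring
      rw [this, h, sub_self]
    rcases mul_eq_zero.mp h2 with h3 | h3
    · exact Or.inl h3
    · exact Or.inr (sub_eq_zero.mp h3)
  have hcard : 4 ≤ Fintype.card L := by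
    rw [hc]
    calc 4 = 2 ^ 2 := by norm_num
      _ ≤ 2 ^ n := Nat.pow_le_pow_right (by norm_num) hn
  constructor
  · by_contra hcon
    push Not at hcon
    have hinj : Function.Injective (fun u : L => tr2 n u) := by
      intro u v huv
      by_contra hne
      have h1 : u + v ≠ 0 := by
        intro h
        apply hne
        have := CharTwo.add_eq_zero.mp h
        exact this
      apply hcon (u + v) h1
      rw [tr2_add]
      have huv' : tr2 n u = tr2 n v := huv
      rw [huv']
      exact CharTwo.add_self_eq_zero _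
    have h2 : Fintype.card L ≤ ({0, 1} : Finset L).card := by
      rw [← Finset.card_univ]
      refine Finset.card_le_card_of_injOn (fun u => tr2 n u) ?_ hinj.injOn
      intro u _
      have := h01 u
      simpa using this
    have h3 : ({0, 1} : Finset L).card ≤ 2 := Finset.card_le_two
    omega
  · by_contra hcon
    push Not at hcon
    -- the polynomial
    obtain ⟨T, hT⟩ : ∃ T : L[X], T = ∑ i ∈ Finset.range n, X ^ 2 ^ i := ⟨_, rfl⟩
    have hev : ∀ u : L, T.eval u = tr2 n u := by
      intro u
      rw [hT, eval_finset_sum]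
      unfold tr2
      exact Finset.sum_congr rfl fun i _ => by rw [eval_pow, eval_X]
    have hall : ∀ u : L, T.eval u = 0 := by
      intro u
      rw [hev]
      rcases eq_or_ne u 0 with h | h
      · rw [h]; exact tr2_zero n
      · exact hcon u h
    have hcoef : T.coeff 1 = 1 := by
      rw [hT, finset_sum_coeff, Finset.sum_eq_single 0]
      · simp
      · intro i _ hi
        rw [coeff_X_pow, if_neg]
        intro h
        have : 2 ≤ 2 ^ i := by
          calc 2 = 2 ^ 1 := by norm_num
            _ ≤ 2 ^ i := Nat.pow_le_pow_right (by norm_num) (by omega)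
        omega
      · intro h
        exact absurd (Finset.mem_range.mpr (by omega)) h
    have hT0 : T ≠ 0 := by
      intro h
      rw [h] at hcoef
      simp at hcoef
    have hdeg : T.natDegree < Fintype.card L := by
      rw [hT, hc]
      refine lt_of_le_of_lt (natDegree_sum_le_of_forall_le (n := 2 ^ (n - 1)) _ _ ?_) ?_
      · intro i hi
        rw [natDegree_X_pow]
        have := Finset.mem_range.mp hi
        exact Nat.pow_le_pow_right (by norm_num) (by omega)
      · exact Nat.pow_lt_pow_right (by norm_num) (by omega)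
    apply hT0
    exact Polynomial.eq_zero_of_natDegree_lt_card_of_eval_eq_zero T
      (f := fun u : L => u) Function.injective_id hall hdeg

theorem main : S_ETA.{u} := by
  classical
  intro K _ _ _ m hm P hP hd
  haveI : Fact (Irreducible P) := ⟨hP⟩
  have hP0 := hP.ne_zero
  haveI : Module.Finite K (AdjoinRoot P) := (AdjoinRoot.powerBasis hP0).finite
  haveI : Finite (AdjoinRoot P) := Module.finite_of_finite K
  letI : Fintype (AdjoinRoot P) := Fintype.ofFinite _
  haveI : CharP (AdjoinRoot P) 2 :=
    charP_of_injective_algebraMap (algebraMap K (AdjoinRoot P)).injective 2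
  have hc : Fintype.card (AdjoinRoot P) = 2 ^ (m * P.natDegree) := by
    rw [← Nat.card_eq_fintype_card, Module.natCard_eq_pow_finrank (K := K),
      (AdjoinRoot.powerBasis hP0).finrank, AdjoinRoot.powerBasis_dim, Nat.card_eq_fintype_card,
      hm, pow_mul]
  have hm1 : 1 ≤ m := by
    rcases Nat.eq_zero_or_pos m with h | h
    · exfalso
      have : 1 < Fintype.card K := Fintype.one_lt_card
      rw [hm, h] at this
      simp at this
    · exact h
  have hn : 2 ≤ m * P.natDegree := by nlinarith
  obtain ⟨⟨u, hu0, hu⟩, ⟨v, hv0, hv⟩⟩ := field (m * P.natDegree) hn hc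
  obtain ⟨y, rfl⟩ := AdjoinRoot.mk_surjective u
  obtain ⟨w, rfl⟩ := AdjoinRoot.mk_surjective v
  rw [← map_tr2] at hu hv
  refine ⟨⟨y, ?_, ?_⟩, ⟨w, ?_, ?_⟩⟩
  · rwa [Ne, AdjoinRoot.mk_eq_zero] at hu0
  · rwa [AdjoinRoot.mk_eq_zero] at hu
  · rwa [Ne, AdjoinRoot.mk_eq_zero] at hv0
  · rwa [Ne, AdjoinRoot.mk_eq_zero] at hv

end Pool.Agent.Helper46.C2.ETA
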