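import Pool.Agent.Helper95.C2.Spec

set_option autoImplicit false

/-!
# IRR: infinitely many monic irreducible polynomials of degree at least two
-/

open Polynomial

namespace Pool.Agent.Helper46.C2.IRR

open Pool.Agent.Helper95.C2

universe u

theorem main : S_IRR.{u} := by
  classical
  intro K _ _ n V hV
  have hq : 1 < Fintype.card K := Fintype.one_lt_card
  have hinf : {P : K[X] | P.Monic ∧ Irreducible P ∧ 2 ≤ P.natDegree ∧ ¬ P ∣ V}.Infinite := by
    intro hfin
    obtain ⟨Q, hQ⟩ : ∃ Q : K[X], Q = (∏ P ∈ hfin.toFinset, P) * V * (X ^ Fintype.card K - X) :=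
      ⟨_, rfl⟩
    have h1 : (∏ P ∈ hfin.toFinset, P) ≠ 0 := by
      rw [Finset.prod_ne_zero_iff]
      intro P hP
      exact (hfin.mem_toFinset.mp hP).1.ne_zero
    have h2 : (X ^ Fintype.card K - X : K[X]) ≠ 0 := FiniteField.X_pow_card_sub_X_ne_zero K hq
    have h3 : (X ^ Fintype.card K - X : K[X]).natDegree = Fintype.card K :=
      FiniteField.X_pow_card_sub_X_natDegree_eq K hq
    have hQd : 0 < Q.natDegree := by
      rw [hQ, natDegree_mul (mul_ne_zero h1 hV) h2, h3]
      omega
    have hQ1 : 0 < (Q + 1).natDegree := by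
      have : (Q + 1).natDegree = Q.natDegree := by
        rw [← C_1]
        exact natDegree_add_C
      rw [this]
      exact hQd
    obtain ⟨P, hPm, hPi, hPd⟩ := exists_monic_irreducible_factor (Q + 1)
      (not_isUnit_of_natDegree_pos _ hQ1)
    have hPQ : ¬ P ∣ Q := fun h => hPi.not_isUnit (isUnit_of_dvd_one ((dvd_add_right h).mp hPd))
    have hPV : ¬ P ∣ V := by
      intro h
      apply hPQ
      rw [hQ]
      exact dvd_mul_of_dvd_left (dvd_mul_of_dvd_right h _) _
    have hP2 : 2 ≤ P.natDegree := by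
      by_contra hlt
      have hpos := hPi.natDegree_pos
      have hone : P.natDegree = 1 := by omega
      apply hPQ
      rw [hQ]
      refine dvd_mul_of_dvd_right ?_ _
      have e1 : P = X + C (P.coeff 0) := hPm.eq_X_add_C hone
      have e2 : P = X - C (-P.coeff 0) := by rw [C_neg, sub_neg_eq_add]; exact e1
      rw [e2, dvd_iff_isRoot]
      simp [IsRoot.def, FiniteField.pow_card]
    have hPM : P ∈ hfin.toFinset := hfin.mem_toFinset.mpr ⟨hPm, hPi, hP2, hPV⟩
    apply hPQ
    rw [hQ]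
    exact dvd_mul_of_dvd_left (dvd_mul_of_dvd_left (Finset.dvd_prod_of_mem _ hPM) _) _
  obtain ⟨e⟩ : Nonempty (ℕ ↪ {P : K[X] | P.Monic ∧ Irreducible P ∧ 2 ≤ P.natDegree ∧ ¬ P ∣ V}) :=
    ⟨hinf.natEmbedding⟩
  refine ⟨fun j => (e (j : ℕ) : K[X]), fun j => (e (j : ℕ)).2, ?_⟩
  intro i j hij
  have h1 := e.injective (Subtype.ext hij)
  exact Fin.ext h1

end Pool.Agent.Helper46.C2.IRR
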