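import Pool.Agent.Helper95.C2.Spec

set_option autoImplicit false

/-!
# VAR: the resultant at a special prime
-/

open Polynomial

namespace Pool.Agent.Helper46.C2.VAR

open Pool.Agent.Helper95.C2

universe u

theorem main : S_VAR.{u} := by
  intro S _ _ A G ϖ b hϖ hd h1 h2 h y hy
  have hϖ2 : (ϖ + 2).Monic := by
    have e : (2 : S[X]) = C (2 : S) := by rw [map_ofNat]
    rw [e]
    apply hϖ.add_of_left
    rw [degree_eq_natDegree hϖ.ne_zero]
    exact lt_of_le_of_lt degree_C_le (by exact_mod_cast hd)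
  rw [rs_mul_left hϖ hϖ2, rs_mul_left hϖ hϖ2, rs_mul_left hϖ hϖ2]
  have e1 : rs ϖ (A * (G + h ^ 8) + C b) = rs ϖ A * rs ϖ h ^ 8 := by
    rw [← rs_pow_right hϖ, ← rs_mul_right hϖ]
    apply rs_congr hϖ
    have : A * (G + h ^ 8) + C b - A * h ^ 8 = A * G + C b := by ring
    rw [this]
    exact h1
  have e2 : rs (ϖ + 2) (A * (G + h ^ 8) + C b) =
      rs (ϖ + 2) A * (rs (ϖ + 2) h ^ 8 * rs (ϖ + 2) (1 + 4 * y ^ 8)) := by
    rw [← rs_pow_right hϖ2, ← rs_mul_right hϖ2, ← rs_mul_right hϖ2]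
    apply rs_congr hϖ2
    have e3 : A * (G + h ^ 8) + C b - A * (h ^ 8 * (1 + 4 * y ^ 8)) =
        (A * G + C b - 4 * A) - 4 * A * ((h * y) ^ 8 - 1 ^ 8) := by ring
    rw [e3]
    refine dvd_sub h2 (dvd_mul_of_dvd_right ?_ _)
    exact dvd_trans hy (sub_dvd_pow_sub_pow (h * y) 1 8)
  rw [e1, e2]
  ring

end Pool.Agent.Helper46.C2.VAR
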